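import Pool.Agent.H448Z.Buch.Main

set_option autoImplicit false

namespace Pool.Agent.Results.MP_1dea36_gt.Counterexample

open Pool.Agent.H448Z.Buch

universe u

/-- There are two simple four-dimensional polytopes `P`, `Q` with eight facets such that, over every
field, the Tor algebras of `K_P` and `K_Q` have the same bigraded Betti numbers and are isomorphic
as bigraded algebras, while `s(K_P) < s(K_Q)` and `s_ℝ(K_P) < s_ℝ(K_Q)`. -/
theorem result : ∃ P Q : SimplePolytope 4 8,
    (∀ (k : Type u) [Field k],
      (∀ i j, betti k P.complex i j = betti k Q.complex i j) ∧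
      TorIso k P.complex Q.complex) ∧
    buch P.complex < buch Q.complex ∧ buchR P.complex < buchR Q.complex :=
  ⟨polyP, polyQ, fun k _ => (tor_iso k).elim fun φ h => ⟨betti_eq_of_iso φ h, φ, h⟩,
    buch_lt, buchR_lt⟩

end Pool.Agent.Results.MP_1dea36_gt.Counterexample
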